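import Mathlib

set_option autoImplicit false

namespace Pool.Agent.Results.MP_14f59b_co.NineteenBallots

/-- A ballot for `k` offices, office `j` having the candidates `Fin (m j)`: for each office a
bijection from the positions `Fin (m j)` onto the candidates `Fin (m j)`. -/
abbrev Ballot {k : ℕ} (m : Fin k → ℕ) : Type := ∀ j : Fin k, Equiv.Perm (Fin (m j))

/-- The finite nonempty set `S` of distinct ballots with the positive integer multiplicities `w` is
a balanced ballot system: for every office `j` and every position `p` the weighted number of ballots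
showing candidate `c` at position `p` is the same for all candidates `c` of office `j`. -/
def IsBalanced {k : ℕ} (m : Fin k → ℕ) (S : Finset (Ballot m)) (w : Ballot m → ℕ) : Prop :=
  S.Nonempty ∧ (∀ b ∈ S, 0 < w b) ∧
    ∀ (j : Fin k) (p c c' : Fin (m j)),
      (∑ b ∈ S with b j p = c, w b) = ∑ b ∈ S with b j p = c', w b

/-- `B(m_1, …, m_k)`: the least possible number of distinct ballots in a balanced ballot system. -/
noncomputable def B {k : ℕ} (m : Fin k → ℕ) : ℕ :=
  sInf {s : ℕ | ∃ (S : Finset (Ballot m)) (w : Ballot m → ℕ), IsBalanced m S w ∧ S.card = s}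

/-- From finitely many distinct weighted tuples of candidates with uniform marginals one gets a
balanced ballot system by cyclic shifts. -/
theorem exists_of_atoms {k : ℕ} (m : Fin k → ℕ) [∀ j, NeZero (m j)] (N : ℕ) (hN : 0 < N)
    (a : Fin N → ∀ j, Fin (m j)) (ha : Function.Injective a) (w : Fin N → ℕ) (hw : ∀ i, 0 < w i)
    (M : Fin k → ℕ) (hM : ∀ (j : Fin k) (c : Fin (m j)),
      (∑ i, if a i j = c then w i else 0) = M j) :
    ∃ (S : Finset (Ballot m)) (w' : Ballot m → ℕ), IsBalanced m S w' ∧ S.card = N := by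
  classical
  let β : Fin N → Ballot m := fun i j => Equiv.addLeft (a i j)
  have hβ : Function.Injective β := by
    intro i i' h
    apply ha
    funext j
    have h1 : β i j 0 = β i' j 0 := by rw [h]
    simpa [β] using h1
  have hinv : ∀ i, Function.extend β w 0 (β i) = w i := fun i => hβ.extend_apply w 0 i
  refine ⟨Finset.univ.image β, Function.extend β w 0, ⟨?_, ?_, ?_⟩, ?_⟩
  · exact ⟨β ⟨0, hN⟩, Finset.mem_image_of_mem _ (Finset.mem_univ _)⟩
  · intro b hb
    obtain ⟨i, -, rfl⟩ := Finset.mem_image.1 hb
    rw [hinv]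
    exact hw i
  · have key : ∀ (j : Fin k) (p c : Fin (m j)),
        (∑ b ∈ Finset.univ.image β with b j p = c, Function.extend β w 0 b) = M j := by
      intro j p c
      rw [Finset.sum_filter, Finset.sum_image (fun x _ y _ h => hβ h), ← hM j (c - p)]
      refine Finset.sum_congr rfl fun i _ => ?_
      rw [hinv]
      have : (β i j p = c) ↔ (a i j = c - p) := by
        show (a i j + p = c) ↔ _
        exact eq_sub_iff_add_eq.symm
      simp only [this]
    intro j p c c'
    rw [key, key]
  · rw [Finset.card_image_of_injective _ hβ, Finset.card_univ, Fintype.card_fin]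

/-- The candidates of the nineteen atoms. -/
def atoms : Fin 19 → Fin 7 × Fin 8 × Fin 9 :=
  ![(0, 1, 4), (0, 1, 6), (0, 6, 1), (1, 0, 8), (1, 5, 0), (2, 3, 4), (2, 3, 8), (2, 7, 3),
    (3, 2, 5), (3, 5, 2), (3, 6, 2), (4, 1, 0), (4, 4, 6), (4, 6, 5), (4, 7, 7), (5, 4, 7),
    (5, 7, 5), (6, 0, 1), (6, 2, 3)]

/-- The weights of the nineteen atoms. -/
def wts : Fin 19 → ℕ :=
  ![11, 30, 31, 38, 34, 45, 18, 9, 16, 29, 27, 22, 26, 5, 19, 37, 35, 25, 47]

/-- The numbers of candidates. -/
def sizes : Fin 3 → ℕ := ![7, 8, 9]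

instance : ∀ j, NeZero (sizes j) := by
  intro j
  fin_cases j <;> exact ⟨by decide⟩

/-- The atoms as dependent functions. -/
def atomFun (i : Fin 19) : ∀ j, Fin (sizes j)
  | 0 => (atoms i).1
  | 1 => (atoms i).2.1
  | 2 => (atoms i).2.2

theorem nineteen : ∃ (S : Finset (Ballot sizes)) (w' : Ballot sizes → ℕ),
    IsBalanced sizes S w' ∧ S.card = 19 := by
  refine exists_of_atoms sizes 19 (by norm_num) atomFun ?_ wts (by decide) ![72, 63, 56] ?_
  · intro i i' h
    have h0 : (atoms i).1 = (atoms i').1 := congrFun h 0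
    have h1 : (atoms i).2.1 = (atoms i').2.1 := congrFun h 1
    have h2 : (atoms i).2.2 = (atoms i').2.2 := congrFun h 2
    have h3 : atoms i = atoms i' := Prod.ext h0 (Prod.ext h1 h2)
    revert i i'
    have : ∀ i i' : Fin 19, atoms i = atoms i' → i = i' := by decide +kernel
    intro i i' _ _ _ _ h3
    exact this i i' h3
  · have h0 : ∀ c : Fin 7, (∑ i, if (atoms i).1 = c then wts i else 0) = 72 := by decide +kernel
    have h1 : ∀ c : Fin 8, (∑ i, if (atoms i).2.1 = c then wts i else 0) = 63 := by
      decide +kernel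
    have h2 : ∀ c : Fin 9, (∑ i, if (atoms i).2.2 = c then wts i else 0) = 56 := by
      decide +kernel
    intro j
    match j with
    | 0 => exact h0
    | 1 => exact h1
    | 2 => exact h2

/-- It is not true that every balanced ballot system for three offices with `2n - 1`, `2n` and
`2n + 1` candidates uses at least `6n - 3` distinct ballots: for `n = 4` there is a balanced ballot
system for `7`, `8` and `9` candidates with `19 = 6n - 5` distinct ballots. -/
theorem result :
    (∃ (S : Finset (Ballot ![7, 8, 9])) (w : Ballot ![7, 8, 9] → ℕ),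
      IsBalanced ![7, 8, 9] S w ∧ S.card = 19) ∧
    ¬ ∀ n : ℕ, 0 < n → 6 * n - 3 ≤ B ![2 * n - 1, 2 * n, 2 * n + 1] := by
  have h : B ![7, 8, 9] ≤ 19 := by
    obtain ⟨S, w, h1, h2⟩ := nineteen
    exact Nat.sInf_le ⟨S, w, h1, h2⟩
  refine ⟨nineteen, fun H => ?_⟩
  have h4 := H 4 (by norm_num)
  norm_num at h4
  omega

end Pool.Agent.Results.MP_14f59b_co.NineteenBallots
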